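import Pool.Agent.AT3.Stmts2
import Pool.Agent.Helper3_C2.GDV

/-!
# Squad AT3, rows DUG, NST
-/

open scoped BigOperators

noncomputable section

namespace Pool.Agent.PP.T3.H3

open Pool.Agent.Helper51_AWC Pool.Agent.Helper79_WRA Pool.Agent.PP Pool.Agent.PP.KF
open Pool.Agent.PP.K9 Pool.Agent.PP.K9.H97

attribute [local instance] Ideal.Quotient.field

theorem under_iff {F G : Type} [Field F] [Group G] [Finite G] {e g : G → F} {Q : Subgroup G}
    (hg : Bx (Subgroup.centralizer (Q : Set G)) g)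
    (heg : mulF (fun t : Subgroup.centralizer (Q : Set G) => e t)
      (fun t : Subgroup.centralizer (Q : Set G) => g t) =
        (fun t : Subgroup.centralizer (Q : Set G) => g t)) : mulF (br Q e) g = g := by
  have hbrs : ∀ x, x ∉ Subgroup.centralizer (Q : Set G) → br Q e x = 0 :=
    fun x hx => H66.br_of_not_mem hx
  have hbr : (fun t : Subgroup.centralizer (Q : Set G) => br Q e t) =
      fun t : Subgroup.centralizer (Q : Set G) => e t := by
    funext t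
    exact H66.br_of_mem t.2
  apply H75.eq_of_res (H75.mulF_supp _ hbrs hg.supp) hg.supp
  rw [H75.mulF_res _ g hbrs, hbr]
  exact heg

/-- DUG -/
theorem dug : DugStmt := by
  intro ℓ _ M _ hM G _ _ e he V hV hVc Q hQ g hg heg
  obtain ⟨P, h1, h2, h3, h4, h5⟩ := C2.H3.gdv C2.H3.dug ℓ M hM G e he V hV hVc Q hQ g
    ⟨hg.supp, hg.blk⟩ (under_iff hg heg)
  exact ⟨P, h2, h3, h1, h4, h5⟩

/-- NST -/
theorem nst (dug : DugStmt) (fus : FusStmt) (gch : GchStmt) (lcj : LcjStmt) (lpw : LpwStmt) :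
    NstStmt := by
  intro ℓ hfact M _ hM G _ _ N hN e V γ hL hix y hy1 hyl b hb heb g hg hgb
  have hF : GoodF ℓ (FF M) := H50.fld ℓ hfact.out M hM
  have hpr : ℓ.Prime := hfact.out
  have hC : Subgroup.centralizer ((Subgroup.zpowers y : Subgroup G) : Set G) = Cu y := by
    ext x
    rw [Subgroup.mem_centralizer_iff, Subgroup.mem_centralizer_singleton_iff]
    constructor
    · intro h
      exact (h y (Subgroup.mem_zpowers y)).symm
    · intro h z hz
      obtain ⟨k, rfl⟩ := Subgroup.mem_zpowers_iff.1 hz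
      exact ((show Commute x y from h).zpow_right k).eq.symm
  have hQ : IsPGroup ℓ (Subgroup.zpowers y) := by
    obtain ⟨n, hn⟩ := hyl
    rintro ⟨z, hz⟩
    obtain ⟨k, rfl⟩ := Subgroup.mem_zpowers_iff.1 hz
    refine ⟨n, Subtype.ext ?_⟩
    show (y ^ k) ^ ℓ ^ n = 1
    rw [← zpow_natCast, ← zpow_mul, mul_comm, zpow_mul, zpow_natCast, hn, one_zpow]
  obtain ⟨P, hQP, hPC, hP, hPV, hgP⟩ := dug ℓ M hM G e hL.blk V hL.tp hL.ab (Subgroup.zpowers y) hQ
    b (by rw [hC]; exact hb) (by rw [hC]; exact heb)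
  have hyP : y ∈ P := hQP (Subgroup.mem_zpowers y)
  rw [hC] at hPC
  have hbQ : Bx (Subgroup.centralizer ((Subgroup.zpowers y : Subgroup G) : Set G)) b := by
    rw [hC]
    exact hb
  have hunQ : mulF (br (Subgroup.zpowers y) e) b = b :=
    under_iff hbQ (by rw [hC]; exact heb)
  -- `P` is good for `e`
  have hCC : Subgroup.centralizer (P : Set G) ≤ Cu y := by
    rw [← hC]
    exact Subgroup.centralizer_le (show ((Subgroup.zpowers y : Subgroup G) : Set G) ⊆ P from hQP)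
  have hinvP : H66.Inv P b := fun p hp t => C2.H3.ix_inv hb.ix (hPC hp) t
  have hIb : Ix (Subgroup.centralizer (P : Set G)) (br P b) :=
    C2.H3.ix_br hF hP (fun z hz x => C2.H3.ix_inv hb.ix (hCC hz) x) hinvP hb.mul
  have hIQ : Ix (Subgroup.centralizer ((Subgroup.zpowers y : Subgroup G) : Set G))
      (br (Subgroup.zpowers y) e) :=
    C2.H3.ix_br hF hQ (fun z _ x => hL.blk.1.1 x z) (H66.IsCl.inv hL.blk.1.1 _) hL.blk.1.2
  have hinvQ : H66.Inv P (br (Subgroup.zpowers y) e) := fun p hp t =>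
    C2.H3.ix_inv hIQ (by rw [hC]; exact hPC hp) t
  have hPe : mulF (br P e) (br P b) = br P b := by
    have h1 := congrArg (br P) hunQ
    rwa [H66.br_mulF hF hP hinvQ hinvP, C2.H3.br_br hQP] at h1
  have hbrb : br P b ≠ 0 := C2.H3.br_ne_of_gd hgP
  have hGe : Gd e P := by
    apply C2.H3.gd_of_br'
    intro h0
    apply hbrb
    rw [← hPe, h0, H75.mulF_zero_left]
  -- the conjugate
  obtain ⟨k, hk⟩ := (K9.H69.fmg ℓ M hM G e hL.blk V hL.tp).1 P hP hGe
  have hPk : P = conjS k V := by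
    refine Subgroup.eq_of_le_of_card_ge hk ?_
    rw [card_conjS, hPV]
  obtain ⟨hL1, hix1⟩ := lcj ℓ (FF M) hF G e V γ hL k
  rw [← hPk] at hL1 hix1
  -- the block of `C(P)`
  obtain ⟨γ₀, hγ₀, hgγ, -⟩ := K9.H24.exists_blk
    (L := fun a : Subgroup.centralizer (P : Set G) → FF M => a) rfl
    (fun a b => rfl) hIb.idem (by
      intro h
      apply hbrb
      exact H75.eq_of_res hIb.supp (fun _ _ => rfl) h)
  obtain ⟨γ₁, hγ₁⟩ : ∃ γ₁ : G → FF M,
      γ₁ = H75.ext0 (Subgroup.centralizer (P : Set G)) γ₀ := ⟨_, rfl⟩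
  have hγs : ∀ x, x ∉ Subgroup.centralizer (P : Set G) → γ₁ x = 0 := by
    rw [hγ₁]
    exact H75.ext0_supp _ γ₀
  have hγC : (fun t : Subgroup.centralizer (P : Set G) => γ₁ t) = γ₀ := by
    rw [hγ₁]
    exact funext (H75.ext0_apply _ γ₀)
  have hBγ : Bx (Subgroup.centralizer (P : Set G)) γ₁ := ⟨hγs, by rw [hγC]; exact hγ₀⟩
  have hbγ : mulF (br P b) γ₁ = γ₁ := by
    apply H75.eq_of_res (H75.mulF_supp _ hIb.supp hγs) hγs
    rw [H75.mulF_res _ γ₁ hIb.supp, hγC, hgγ]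
  have heγ : mulF (br P e) γ₁ = γ₁ := by
    rw [← hbγ, ← H20.mulF_assoc, hPe]
  have hL2 : Ld ℓ e P γ₁ := ⟨hL.blk, hL1.tp, hL1.ab, hBγ, heγ⟩
  have hix2 : ix P γ₁ = ix V γ := (gch ℓ M hM G e P (H75.cj k γ) γ₁ hL1 hL2).trans hix1
  have hLc : Lc e P γ₁ y b := ⟨hb, heb, hbγ⟩
  -- `N` is prime to `ℓ`
  have hord : ℓ ∣ orderOf y := by
    obtain ⟨n, hn⟩ := hyl
    obtain ⟨m, _, hm⟩ := (Nat.dvd_prime_pow hpr).1 (orderOf_dvd_of_pow_eq_one hn)
    rcases Nat.eq_zero_or_pos m with h0 | h0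
    · exfalso
      rw [h0, pow_zero] at hm
      exact hy1 (orderOf_eq_one_iff.1 hm)
    · rw [hm]
      exact dvd_pow_self _ h0.ne'
  have hNℓ : ¬ ℓ ∣ N := by
    intro h
    have h1 : ℓ ∣ Nat.card G := hord.trans (orderOf_dvd_natCard y)
    have h2 := Nat.dvd_gcd h h1
    rw [hN.cop.gcd_eq_one] at h2
    exact hpr.one_lt.ne' (Nat.dvd_one.1 h2)
  obtain ⟨-, hLcN⟩ := lpw ℓ (FF M) hF G e P γ₁ hL2 y hyP b hLc N hNℓ
  obtain ⟨t, ht, hty⟩ := fus ℓ M hM G e P γ₁ hL2 (y ^ N) (P.pow_mem hyP N) y hyP b b hLcN hLc g hg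
    hgb
  have hpow : ∀ k : ℕ, t ^ k * y * (t ^ k)⁻¹ = y ^ N ^ k := by
    intro k
    induction k with
    | zero => rw [pow_zero, pow_zero, pow_one, one_mul, inv_one, mul_one]
    | succ k ih =>
      calc t ^ (k + 1) * y * (t ^ (k + 1))⁻¹ = t ^ k * (t * y * t⁻¹) * (t ^ k)⁻¹ := by
            rw [pow_succ]
            group
        _ = (t ^ k * y * (t ^ k)⁻¹) ^ N := by rw [hty, conj_pow]
        _ = y ^ N ^ (k + 1) := by rw [ih, ← pow_mul, pow_succ]
  obtain ⟨m, hm0, hm1, hm2⟩ := Subgroup.exists_pow_mem_of_relIndex_ne_zero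
    (H := Subgroup.centralizer (P : Set G)) (K := Tg P γ₁) (a := t)
    Subgroup.index_ne_zero_of_finite ht
  have hm3 : m ≤ ix V γ := by
    rw [← hix2]
    exact hm1
  have h1 : y ^ N ^ m = y ^ 1 := by
    rw [← hpow m, pow_one]
    have h2 := Subgroup.mem_centralizer_iff.1 (Subgroup.mem_inf.1 hm2).1 y hyP
    rw [← h2, mul_inv_cancel_right]
  have h3 := (pow_eq_pow_iff_modEq.1 h1).of_dvd hord
  exact hN.ord m hm0 (by omega) h3

end Pool.Agent.PP.T3.H3
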